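import Mathlib
import Pool.Agent.Helper63.BPB

/-! The Bishop-Phelps-Bollobas modulus for real valued functionals is at most
`min (√(2 ε)) 1`, for every real Banach space. -/

namespace Pool.Agent.Results.MP_7e7193_an.RealModulus

universe u

/-- `δ` is admissible for `X` and `ε`: every pair `(x, x')` on the unit spheres of `X` and of its
dual with `x' x > 1 - ε` has a pair `(y, y')` on the unit spheres with `|y' y| = 1`, at distance
less than `δ` in both coordinates. -/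
def Admissible (X : Type u) [NormedAddCommGroup X] [NormedSpace ℝ X] (ε δ : ℝ) : Prop :=
  ∀ (x : X) (x' : StrongDual ℝ X), ‖x‖ = 1 → ‖x'‖ = 1 → 1 - ε < x' x →
    ∃ (y : X) (y' : StrongDual ℝ X), ‖y‖ = 1 ∧ ‖y'‖ = 1 ∧ |y' y| = 1 ∧
      ‖x - y‖ < δ ∧ ‖x' - y'‖ < δ

/-- The modulus `Φ^S(X, ℝ, ε)`: the infimum of the positive admissible `δ`. -/
noncomputable def modulus (X : Type u) [NormedAddCommGroup X] [NormedSpace ℝ X] (ε : ℝ) : ℝ :=
  sInf {δ : ℝ | 0 < δ ∧ Admissible X ε δ}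

/-- For every nonzero real Banach space and every `ε ∈ (0, 2)`, every `δ > min (√(2 ε)) 1` is
admissible, and `Φ^S(X, ℝ, ε) ≤ min (√(2 ε)) 1`. -/
theorem result (X : Type u) [NormedAddCommGroup X] [NormedSpace ℝ X] [CompleteSpace X]
    [Nontrivial X] (ε : ℝ) (hε0 : 0 < ε) (hε2 : ε < 2) :
    (∀ δ : ℝ, min (√(2 * ε)) 1 < δ → Admissible X ε δ) ∧
      modulus X ε ≤ min (√(2 * ε)) 1 := by
  have hadm : ∀ δ : ℝ, min (√(2 * ε)) 1 < δ → Admissible X ε δ := by
    intro δ hδ x x' hx hx' hval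
    rcases min_lt_iff.1 hδ with h | h
    · obtain ⟨y, y', hy, hy', hv, h1, h2⟩ :=
        Pool.Agent.Helper63.BPB.bpb ε hε0 hε2 x x' hx hx' hval.le
      exact ⟨y, y', hy, hy', by rw [hv, abs_one], h1.trans_lt h, h2.trans_lt h⟩
    · exact Pool.Agent.Helper63.BPB.dist_one x x' hx hx' δ h
  refine ⟨hadm, le_of_forall_pos_lt_add (fun η hη => ?_)⟩
  have hpos : 0 ≤ min (√(2 * ε)) 1 := le_min (Real.sqrt_nonneg _) zero_le_one
  have hmem : min (√(2 * ε)) 1 + η / 2 ∈ {δ : ℝ | 0 < δ ∧ Admissible X ε δ} :=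
    ⟨by linarith, hadm _ (by linarith)⟩
  have hbdd : BddBelow {δ : ℝ | 0 < δ ∧ Admissible X ε δ} := ⟨0, fun δ hδ => hδ.1.le⟩
  have := csInf_le hbdd hmem
  unfold modulus
  linarith

end Pool.Agent.Results.MP_7e7193_an.RealModulus
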